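import Mathlib

/-!
# Coincidences in a sequence of words `E (n+1) = E (n - k_1) ⋯ E (n - k_r)` with more than half of the `k_i` zero
-/

set_option autoImplicit false

namespace Pool.Agent.SCF

open Finset

variable {α : Type} [DecidableEq α]

/-- A common letter of `p` and `q`, the letter counts before it differing by `t`. -/
def Sh (p q : List α) (t : α → ℤ) : Prop :=
  ∃ (a : α) (p1 p2 q1 q2 : List α), p = p1 ++ a :: p2 ∧ q = q1 ++ a :: q2 ∧
    ∀ b, (p1.count b : ℤ) = q1.count b + t b

theorem Sh.ext {p q : List α} {t t' : α → ℤ} (h : Sh p q t) (e : ∀ b, t b = t' b) : Sh p q t' := by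
  have : t = t' := funext e
  rwa [← this]

theorem Sh.block {p q : List α} {t : α → ℤ} (h : Sh p q t) (x y x' y' : List α) :
    Sh (x ++ (p ++ y)) (x' ++ (q ++ y')) (fun b => t b + x.count b - x'.count b) := by
  obtain ⟨a, p1, p2, q1, q2, hp, hq, hc⟩ := h
  refine ⟨a, x ++ p1, p2 ++ y, x' ++ q1, q2 ++ y', by simp [hp], by simp [hq], fun b => ?_⟩
  have := hc b
  simp only [List.count_append, Nat.cast_add]
  linarith

/-- The word `E (n - k_1) ⋯ E (n - k_r)`. -/
def ex (E : ℕ → List α) (n : ℕ) (w : List ℕ) : List α := w.flatMap fun k => E (n - k)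

/-- The vector `∑ u_k · counts of E (n - k)`. -/
def V (E : ℕ → List α) (K : ℕ) (u : ℕ → ℤ) (n : ℕ) (b : α) : ℤ :=
  ∑ k ∈ range (K + 1), u k * ((E (n - k)).count b : ℤ)

theorem count_ex (E : ℕ → List α) (K n : ℕ) (w : List ℕ) (hw : ∀ k ∈ w, k ≤ K) (b : α) :
    ((ex E n w).count b : ℤ) = V E K (fun k => (w.count k : ℤ)) n b := by
  induction w with
  | nil => simp [ex, V]
  | cons c w ih =>
    have h1 := ih (fun k hk => hw k (List.mem_cons_of_mem _ hk))
    have hc : c ≤ K := hw c (by simp)
    have h2 : ex E n (c :: w) = E (n - c) ++ ex E n w := by simp [ex]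
    rw [h2, List.count_append, Nat.cast_add, h1]
    unfold V
    have h3 : ∀ k, ((List.count k (c :: w) : ℕ) : ℤ) = (if k = c then 1 else 0) + (w.count k : ℤ) := by
      intro k
      rw [List.count_cons]
      by_cases hk : k = c
      · subst hk; simp [add_comm]
      · have : ¬ (c = k) := fun h => hk h.symm
        simp [hk, this]
    simp only [h3, add_mul, Finset.sum_add_distrib]
    congr 1
    rw [Finset.sum_eq_single c]
    · simp
    · intro k _ hk; simp [hk]
    · intro hc'; exact absurd (Finset.mem_range.2 (by omega)) hc'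

theorem V_succ (E : ℕ → List α) (K : ℕ) (u : ℕ → ℤ) (n : ℕ) (b : α) (h0 : u 0 = 0)
    (hK : u (K + 1) = 0) : V E K u (n + 1) b = V E K (fun k => u (k + 1)) n b := by
  unfold V
  rw [Finset.sum_range_succ', Finset.sum_range_succ (fun k => u (k + 1) * _), h0, hK]
  simp

theorem V_lin (E : ℕ → List α) (K : ℕ) (u v w : ℕ → ℤ) (n : ℕ) (b : α) :
    V E K u n b + V E K v n b - V E K w n b = V E K (fun k => u k + v k - w k) n b := by
  unfold V
  rw [← Finset.sum_add_distrib, ← Finset.sum_sub_distrib]
  exact Finset.sum_congr rfl fun k _ => by ring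

/-- From some `n` on, `E n` and its translate have a common letter. -/
def Cl (E : ℕ → List α) (K : ℕ) (u : ℕ → ℤ) : Prop := ∃ N, ∀ n, N ≤ n → Sh (E n) (E n) (V E K u n)

theorem Cl.zero {E : ℕ → List α} {K : ℕ} {u : ℕ → ℤ} (hne : ∀ n, E n ≠ [])
    (hu : ∀ k ∈ range (K + 1), u k = 0) : Cl E K u := by
  refine ⟨0, fun n _ => ?_⟩
  obtain ⟨a, l, hl⟩ := List.exists_cons_of_ne_nil (hne n)
  refine ⟨a, [], l, [], l, by simp [hl], by simp [hl], fun b => ?_⟩
  have : V E K u n b = 0 := Finset.sum_eq_zero fun k hk => by rw [hu k hk, zero_mul]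
  simp [this]

theorem Cl.step {E : ℕ → List α} {K : ℕ} {W : List ℕ} (hK : ∀ k ∈ W, k ≤ K)
    (hE : ∀ n, K ≤ n → E (n + 1) = ex E n W) {u : ℕ → ℤ} (h0 : u 0 = 0) (hu : u (K + 1) = 0)
    {px sx py sy : List ℕ} (hx : W = px ++ 0 :: sx) (hy : W = py ++ 0 :: sy)
    (h : Cl E K (fun k => u (k + 1) + (py.count k : ℤ) - (px.count k : ℤ))) : Cl E K u := by
  obtain ⟨N, hN⟩ := h
  refine ⟨max N K + 1, fun n hn => ?_⟩
  obtain ⟨m, rfl⟩ : ∃ m, n = m + 1 := ⟨n - 1, by omega⟩
  have hm : K ≤ m := by omega
  have hm' : N ≤ m := by omega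
  have ex1 : ∀ p s : List ℕ, ex E m (p ++ 0 :: s) = ex E m p ++ (E m ++ ex E m s) := by
    intro p s; simp [ex]
  have e1 : E (m + 1) = ex E m px ++ (E m ++ ex E m sx) := by rw [hE m hm, hx, ex1]
  have e2 : E (m + 1) = ex E m py ++ (E m ++ ex E m sy) := by rw [hE m hm, hy, ex1]
  have hpx : ∀ k ∈ px, k ≤ K := fun k hk => hK k (by rw [hx]; simp [hk])
  have hpy : ∀ k ∈ py, k ≤ K := fun k hk => hK k (by rw [hy]; simp [hk])
  have h3 := (hN m hm').block (ex E m px) (ex E m sx) (ex E m py) (ex E m sy)
  rw [← e1, ← e2] at h3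
  refine h3.ext fun b => ?_
  rw [count_ex E K m px hpx, count_ex E K m py hpy, V_lin, V_succ E K u m b h0 hu]
  congr 1
  funext k
  ring

/-- Choice of the fixed start of the windows. -/
theorem split_exists (W : List ℕ) (hW : W.length < 2 * W.count 0) :
    ∃ p T : List ℕ, W = p ++ 0 :: T ∧
      (∀ m r, 0 :: T = m ++ 0 :: r → m ≠ [] → m.length < 2 * m.count 0) ∧
      ∀ i s, W = i ++ 0 :: s → 0 ∉ i → i.length + T.length ≤ 2 * T.count 0 := by
  classical
  obtain ⟨N, hNdef⟩ : ∃ N : ℤ, N = (W.length : ℤ) := ⟨_, rfl⟩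
  have hpos : 0 < W.count 0 := by omega
  have hmem : 0 ∈ W := List.count_pos_iff.1 hpos
  have hN : 0 < N := by
    have : 0 < W.length := List.length_pos_of_mem hmem
    omega
  let f : List ℕ → ℤ := fun w => (w.length : ℤ) - 2 * (w.count 0 : ℤ)
  have fapp : ∀ x y : List ℕ, f (x ++ y) = f x + f y := by
    intro x y; simp only [f, List.length_append, List.count_append, Nat.cast_add]; ring
  have tk : ∀ p s X : List ℕ, X = p ++ 0 :: s → X.take p.length = p := by
    rintro p s X rfl; exact List.take_left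
  let S : Finset ℕ := (range W.length).filter fun k => ∃ s, W = W.take k ++ 0 :: s
  have hS : ∀ p s : List ℕ, W = p ++ 0 :: s → p.length ∈ S := by
    intro p s h
    refine Finset.mem_filter.2 ⟨Finset.mem_range.2 (by rw [h]; simp), s, ?_⟩
    rw [tk p s W h]; exact h
  have hSne : S.Nonempty := by
    obtain ⟨p, s, h⟩ := List.append_of_mem hmem
    exact ⟨_, hS p s h⟩
  obtain ⟨k, hk, hmax⟩ := Finset.exists_max_image S (fun k => f (W.take k) * N + (k : ℤ)) hSne
  obtain ⟨hkr, T, hT⟩ := Finset.mem_filter.1 hk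
  have hkl : (W.take k).length = k := by
    rw [List.length_take]; exact Nat.min_eq_left (Finset.mem_range.1 hkr).le
  have hkN : (k : ℤ) < N := by
    have := Finset.mem_range.1 hkr
    omega
  refine ⟨W.take k, T, hT, ?_, ?_⟩
  · intro m r hm hne
    have h1 : W = (W.take k ++ m) ++ 0 :: r := by
      rw [List.append_assoc, ← hm]; exact hT
    have h2 := hmax _ (hS _ _ h1)
    have h3 : W.take (W.take k ++ m).length = W.take k ++ m := tk _ _ _ h1
    simp only [h3, fapp] at h2
    rw [List.length_append, hkl] at h2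
    push_cast at h2
    have h4 : 0 < m.length := List.length_pos_iff.2 hne
    have h5 : f m * N + m.length ≤ 0 := by nlinarith
    have h6 : f m < 0 := by
      by_contra hcon
      have : 0 ≤ f m * N := mul_nonneg (not_lt.1 hcon) hN.le
      have h7 : (0 : ℤ) < m.length := by exact_mod_cast h4
      linarith
    simp only [f] at h6
    omega
  · intro i s hi h0
    have h2 := hmax _ (hS _ _ hi)
    have h3 : W.take i.length = i := tk _ _ _ hi
    simp only [h3] at h2
    have hfi : f i = i.length := by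
      simp only [f, List.count_eq_zero_of_not_mem h0]; simp
    have h4 : f i ≤ f (W.take k) := by
      by_contra hcon
      have h5 : f (W.take k) + 1 ≤ f i := by omega
      have h6 : (f (W.take k) + 1) * N ≤ f i * N := mul_le_mul_of_nonneg_right h5 hN.le
      have h7 : (0 : ℤ) ≤ i.length := by positivity
      nlinarith
    have h8 : f W = f (W.take k) + (f [0] + f T) := by
      conv_lhs => rw [hT]
      rw [fapp]
      congr 1
      exact fapp [0] T
    have h9 : f W < 0 := by simp only [f]; omega
    have h10 : f [0] = -1 := by simp [f]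
    rw [h10] at h8
    rw [hfi] at h4
    have h11 : f T ≤ - (i.length : ℤ) := by linarith
    simp only [f] at h11
    omega

theorem cut (L : List ℕ) : ∀ d : ℕ, d < L.count 0 → ∃ m r, L = m ++ 0 :: r ∧ m.count 0 = d := by
  induction L with
  | nil => intro d hd; simp at hd
  | cons c L ih =>
    intro d hd
    by_cases hc : c = 0
    · subst hc
      cases d with
      | zero => exact ⟨[], L, by simp, by simp⟩
      | succ d =>
        rw [List.count_cons_self] at hd
        obtain ⟨m, r, h1, h2⟩ := ih d (by omega)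
        exact ⟨0 :: m, r, by rw [h1]; simp, by rw [List.count_cons_self, h2]⟩
    · rw [List.count_cons_of_ne hc] at hd
      obtain ⟨m, r, h1, h2⟩ := ih d hd
      exact ⟨c :: m, r, by rw [h1]; simp, by rw [List.count_cons_of_ne hc, h2]⟩

theorem countP_succ (Z : List ℕ) (k : ℕ) :
    Z.countP (fun c => decide (k ≤ c)) = Z.countP (fun c => decide (k + 1 ≤ c)) + Z.count k := by
  induction Z with
  | nil => simp
  | cons c Z ih =>
    rw [List.countP_cons, List.countP_cons, List.count_cons, ih]
    by_cases h1 : k + 1 ≤ c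
    · have h2 : k ≤ c := by omega
      have h3 : ¬ c = k := by omega
      simp [h1, h2, h3]; omega
    · by_cases h4 : c = k
      · subst h4; simp; omega
      · have h2 : ¬ k ≤ c := by omega
        simp [h1, h2, h4]

theorem sum_count_range (m : List ℕ) (K : ℕ) (hm : ∀ k ∈ m, k ≤ K) :
    ∑ k ∈ range K, m.count (k + 1) + m.count 0 = m.length := by
  rw [← Finset.sum_range_succ' (fun k => m.count k) K]
  induction m with
  | nil => simp
  | cons c m ih =>
    have h1 := ih fun k hk => hm k (List.mem_cons_of_mem _ hk)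
    simp only [List.count_cons, Finset.sum_add_distrib, h1, List.length_cons]
    congr 1
    rw [Finset.sum_eq_single c]
    · simp
    · intro k _ hk
      have : ¬ c = k := fun h => hk h.symm
      simp [this]
    · intro h
      exact absurd (Finset.mem_range.2 (by have := hm c (by simp); omega)) h

end Pool.Agent.SCF
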