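import Pool.Agent.SCF.Core

/-!
# The descent
-/

set_option autoImplicit false

namespace Pool.Agent.SCF

open Finset

variable {α : Type} [DecidableEq α]

/-- The measure of the descent. -/
def mu (Λ K : ℕ) (v : ℕ → ℕ) : ℕ := ∑ k ∈ range (K + 1), (Λ + k) * v k

theorem mu_lt (Λ K : ℕ) (v v' : ℕ → ℕ) (m : List ℕ) (hm : ∀ k ∈ m, k ≤ K) (h0 : v 0 = 0)
    (hK : v (K + 1) = 0) (h0' : v' 0 = 0) (hv : ∀ k, 1 ≤ k → v' k ≤ v (k + 1) + m.count k)
    (hm0 : m.count 0 = v 1) (hm1 : m = [] ∨ m.length < 2 * m.count 0) (hL : K * v 1 ≤ Λ)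
    (hne : ∃ k, k ≤ K ∧ v k ≠ 0) : mu Λ K v' < mu Λ K v := by
  have a1 : mu Λ K v = ∑ k ∈ range K, (Λ + (k + 1)) * v (k + 1) := by
    unfold mu; rw [Finset.sum_range_succ', h0]; simp
  have a2 : mu Λ K v' = ∑ k ∈ range K, (Λ + (k + 1)) * v' (k + 1) := by
    unfold mu; rw [Finset.sum_range_succ', h0']; simp
  have a3 : ∑ k ∈ range K, (Λ + (k + 1)) * v' (k + 1) ≤
      ∑ k ∈ range K, (Λ + (k + 1)) * v (k + 2) + ∑ k ∈ range K, (Λ + K) * m.count (k + 1) := by
    rw [← Finset.sum_add_distrib]
    refine Finset.sum_le_sum fun k hk => ?_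
    have hk' : k < K := Finset.mem_range.1 hk
    have b1 := hv (k + 1) (by omega)
    have b2 : (Λ + (k + 1)) * m.count (k + 1) ≤ (Λ + K) * m.count (k + 1) :=
      Nat.mul_le_mul_right _ (by omega)
    calc (Λ + (k + 1)) * v' (k + 1) ≤ (Λ + (k + 1)) * (v (k + 2) + m.count (k + 1)) :=
          Nat.mul_le_mul_left _ b1
      _ ≤ _ := by rw [Nat.mul_add]; omega
  have a4 : ∑ k ∈ range K, (Λ + (k + 1)) * v (k + 2) + ((Λ + 1) * v 1 + ∑ k ∈ range K, v (k + 2)) =
      mu Λ K v := by
    have c1 : ∑ k ∈ range K, (Λ + (k + 1)) * v (k + 2) + ∑ k ∈ range K, v (k + 2) =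
        ∑ k ∈ range K, (Λ + (k + 1 + 1)) * v (k + 1 + 1) := by
      rw [← Finset.sum_add_distrib]
      exact Finset.sum_congr rfl fun k _ => by ring
    have c2 := Finset.sum_range_succ' (fun k => (Λ + (k + 1)) * v (k + 1)) K
    have c3 := Finset.sum_range_succ (fun k => (Λ + (k + 1)) * v (k + 1)) K
    rw [hK] at c3
    simp only [zero_add, mul_zero, add_zero] at c2 c3
    rw [a1]
    omega
  have a5 : ∑ k ∈ range K, (Λ + K) * m.count (k + 1) + (Λ + K) * v 1 = (Λ + K) * m.length := by
    rw [← Finset.mul_sum, ← Nat.mul_add, ← hm0, sum_count_range m K hm]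
  rcases hm1 with hm1 | hm1
  · have b1 : v 1 = 0 := by rw [← hm0, hm1]; simp
    rw [hm1] at a5
    simp only [List.length_nil, mul_zero] at a5
    have b2 : 0 < ∑ k ∈ range K, v (k + 2) := by
      obtain ⟨k, hk, hvk⟩ := hne
      have k0 : k ≠ 0 := fun h => hvk (by rw [h, h0])
      have k1 : k ≠ 1 := fun h => hvk (by rw [h, b1])
      obtain ⟨j, rfl⟩ : ∃ j, k = j + 2 := ⟨k - 2, by omega⟩
      exact Finset.sum_pos' (fun _ _ => Nat.zero_le _)
        ⟨j, Finset.mem_range.2 (by omega), Nat.pos_of_ne_zero hvk⟩
    rw [b1] at a4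
    simp only [mul_zero, zero_add] at a4
    rw [hm1] at a3
    simp only [List.count_nil, mul_zero, Finset.sum_const_zero, add_zero] at a3
    omega
  · have b1 : 0 < v 1 := by
      rcases Nat.eq_zero_or_pos (v 1) with h | h
      · rw [hm0, h] at hm1; omega
      · exact h
    have b2 : m.length + 1 ≤ 2 * v 1 := by rw [← hm0]; omega
    have b3 : (Λ + K) * m.length + (Λ + K) ≤ (Λ + K) * (2 * v 1) := by
      calc (Λ + K) * m.length + (Λ + K) = (Λ + K) * (m.length + 1) := by ring
        _ ≤ _ := Nat.mul_le_mul_left _ b2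
    have b4 : (Λ + K) * (2 * v 1) = (Λ + K) * v 1 + (Λ * v 1 + K * v 1) := by ring
    have b5 : (Λ + 1) * v 1 = Λ * v 1 + v 1 := by ring
    omega

theorem descent {E : ℕ → List α} {K : ℕ} {W : List ℕ} (hK : ∀ k ∈ W, k ≤ K)
    (hne : ∀ n, E n ≠ []) (hE : ∀ n, K ≤ n → E (n + 1) = ex E n W) {p T i s : List ℕ}
    (hW : W = p ++ 0 :: T)
    (hwin : ∀ m r, 0 :: T = m ++ 0 :: r → m ≠ [] → m.length < 2 * m.count 0)
    (hi : W = i ++ 0 :: s) (hi0 : 0 ∉ i) (hroom : i.length + T.length ≤ 2 * T.count 0) :
    ∀ N : ℕ, ∀ u : ℕ → ℤ, mu (K * T.count 0) K (fun k => (u k).natAbs) < N → u 0 = 0 →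
      (∀ k, 1 ≤ k → (u k).natAbs ≤ (i ++ T).countP (fun c => decide (k ≤ c))) → Cl E K u := by
  have hTK : ∀ k ∈ T, k ≤ K := fun k hk => hK k (by rw [hW]; simp [hk])
  have hiK : ∀ k ∈ i, k ≤ K := fun k hk => hK k (by rw [hi]; simp [hk])
  intro N
  induction N with
  | zero => intro u hu; omega
  | succ N ih =>
    intro u hu h0 hb
    by_cases hz : ∀ k ∈ range (K + 1), u k = 0
    · exact Cl.zero hne hz
    push Not at hz
    obtain ⟨k1, hk1, hk1'⟩ := hz
    have hk1K : k1 ≤ K := by have := Finset.mem_range.1 hk1; omega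
    have huK : u (K + 1) = 0 := by
      have h1 := hb (K + 1) (by omega)
      have h2 : (i ++ T).countP (fun c => decide (K + 1 ≤ c)) = 0 := by
        rw [List.countP_eq_zero]
        intro c hc
        have : c ≤ K := by
          rcases List.mem_append.1 hc with h | h
          · exact hiK c h
          · exact hTK c h
        simp; omega
      have h3 : (u (K + 1)).natAbs = 0 := by omega
      exact Int.natAbs_eq_zero.1 h3
    -- the window
    have hd : (u 1).natAbs ≤ T.count 0 := by
      have h1 := hb 1 le_rfl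
      have h2 := countP_succ (i ++ T) 0
      have h3 : (i ++ T).countP (fun c => decide (0 ≤ c)) = (i ++ T).length := by
        rw [List.countP_eq_length]; intro c _; simp
      rw [h3] at h2
      have h4 : i.count 0 = 0 := List.count_eq_zero_of_not_mem hi0
      rw [List.length_append, List.count_append, h4] at h2
      simp only [zero_add] at h2 h1
      omega
    obtain ⟨m, r, hm, hm0⟩ := cut (0 :: T) (u 1).natAbs (by rw [List.count_cons_self]; omega)
    have hm1 : m = [] ∨ m.length < 2 * m.count 0 := by
      by_cases h : m = []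
      · exact Or.inl h
      · exact Or.inr (hwin m r hm h)
    have hmK : ∀ k ∈ m, k ≤ K := by
      intro k hk
      have : k ∈ 0 :: T := by rw [hm]; simp [hk]
      rcases List.mem_cons.1 this with h | h
      · omega
      · exact hTK k h
    have hmT : ∀ k, 1 ≤ k → m.count k ≤ T.count k := by
      intro k hk
      have h1 : (0 :: T).count k = T.count k := List.count_cons_of_ne (by omega)
      rw [← h1, hm, List.count_append]
      omega
    have hW2 : W = (p ++ m) ++ 0 :: r := by rw [List.append_assoc, ← hm]; exact hW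
    have key : ∀ u' : ℕ → ℤ, u' 0 = 0 →
        (∀ k, 1 ≤ k → (u' k).natAbs ≤ (u (k + 1)).natAbs + m.count k) → Cl E K u' := by
      intro u' h0' hv
      refine ih u' ?_ h0' ?_
      · have hlt : mu (K * T.count 0) K (fun k => (u' k).natAbs) <
            mu (K * T.count 0) K (fun k => (u k).natAbs) := by
          refine mu_lt _ K _ _ m hmK ?_ ?_ ?_ hv hm0 hm1 (Nat.mul_le_mul_left _ hd)
            ⟨k1, hk1K, ?_⟩
          · simp [h0]
          · simp [huK]
          · simp [h0']
          · simpa using hk1'
        omega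
      · intro k hk
        have h1 := hv k hk
        have h2 := hb (k + 1) (by omega)
        have h3 := countP_succ (i ++ T) k
        have h4 := hmT k hk
        rw [List.count_append] at h3
        omega
    have hc0 : (m.count 0 : ℤ) = (u 1).natAbs := by rw [hm0]
    rcases le_or_gt 0 (u 1) with hs | hs
    · refine Cl.step hK hE h0 huK (px := p ++ m) (sx := r) (py := p) (sy := T) hW2 hW ?_
      refine key _ ?_ ?_
      · simp only [List.count_append, Nat.cast_add, zero_add]
        rw [hc0]
        omega
      · intro k _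
        simp only [List.count_append, Nat.cast_add]
        omega
    · refine Cl.step hK hE h0 huK (px := p) (sx := T) (py := p ++ m) (sy := r) hW hW2 ?_
      refine key _ ?_ ?_
      · simp only [List.count_append, Nat.cast_add, zero_add]
        rw [hc0]
        omega
      · intro k _
        simp only [List.count_append, Nat.cast_add]
        omega

theorem countP_aux (i : List ℕ) (k j j' : ℕ) (h : j' ≤ j) :
    i.count (k + j) + i.countP (fun c => decide (k ≤ c ∧ c < k + j')) ≤
      i.countP (fun c => decide (k ≤ c ∧ c < k + (j + 1))) := by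
  induction i with
  | nil => simp
  | cons a i ih =>
    rw [List.count_cons, List.countP_cons, List.countP_cons]
    split_ifs with h1 h2 h3 h4 h5 h6 h7 <;> simp only [decide_eq_true_eq, beq_iff_eq] at * <;> omega

/-- Inside `E (n + j)` there is a copy of `E n` after a word `E (n - c_1) ⋯ E (n - c_l)`, all `c ≥ 1`. -/
theorem start {E : ℕ → List α} {K : ℕ} {W : List ℕ} (hK : ∀ k ∈ W, k ≤ K)
    (hE : ∀ n, K ≤ n → E (n + 1) = ex E n W) {i s : List ℕ}
    (hi : W = i ++ 0 :: s) (hi0 : 0 ∉ i) :
    ∀ j : ℕ, ∃ v : List ℕ, (∀ c ∈ v, c ≤ K) ∧ v.count 0 = 0 ∧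
      (∀ k, 1 ≤ k → v.count k ≤ i.countP (fun c => decide (k ≤ c ∧ c < k + j))) ∧
      ∀ n, K ≤ n → ∃ y, E (n + j) = ex E n v ++ (E n ++ y) := by
  intro j
  induction j using Nat.strong_induction_on with
  | _ j ih =>
    rcases Nat.eq_zero_or_pos j with hj | hj
    · subst hj
      exact ⟨[], by simp, by simp, by simp, fun n _ => ⟨[], by simp [ex]⟩⟩
    · obtain ⟨j, rfl⟩ : ∃ j', j = j' + 1 := ⟨j - 1, by omega⟩
      -- first letter of value at most `j`
      obtain ⟨q, c, r, hq, hcj, hqj⟩ : ∃ q c r, W = q ++ c :: r ∧ c ≤ j ∧ ∀ x ∈ q, j < x := by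
        have : ∀ L : List ℕ, 0 ∈ L → ∃ q c r, L = q ++ c :: r ∧ c ≤ j ∧ ∀ x ∈ q, j < x := by
          intro L
          induction L with
          | nil => intro h; simp at h
          | cons a L ihL =>
            intro h
            by_cases ha : a ≤ j
            · exact ⟨[], a, L, by simp, ha, by simp⟩
            · have h0 : 0 ∈ L := by
                rcases List.mem_cons.1 h with h | h
                · omega
                · exact h
              obtain ⟨q, c, r, h1, h2, h3⟩ := ihL h0
              refine ⟨a :: q, c, r, by rw [h1]; simp, h2, ?_⟩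
              intro x hx
              rcases List.mem_cons.1 hx with h | h
              · omega
              · exact h3 x h
        exact this W (by rw [hi]; simp)
      have hqi : ∀ k, q.count k ≤ i.count k := by
        intro k
        have hpre : q <+: i := by
          have h1 : q <+: W := ⟨c :: r, hq.symm⟩
          have h2 : i <+: W := ⟨0 :: s, hi.symm⟩
          rcases List.prefix_or_prefix_of_prefix h1 h2 with h | h
          · exact h
          · -- `i` is a prefix of `q`; then equality, since `q` has no zero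
            obtain ⟨t, ht⟩ := h
            rcases t with _ | ⟨a, t⟩
            · rw [List.append_nil] at ht; rw [ht]
            · exfalso
              have h3 : i ++ (a :: t ++ c :: r) = i ++ 0 :: s := by
                rw [← List.append_assoc, ht, ← hq, hi]
              have h4 := List.append_cancel_left h3
              have h5 : a = 0 := by simpa using (List.cons.inj h4).1
              have h6 := hqj a (by rw [← ht]; simp)
              omega
        exact hpre.sublist.count_le k
      obtain ⟨v', hv1, hv2, hv3, hv4⟩ := ih (j - c) (by omega)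
      refine ⟨q.map (fun x => x - j) ++ v', ?_, ?_, ?_, ?_⟩
      · intro x hx
        rcases List.mem_append.1 hx with h | h
        · obtain ⟨y, hy, rfl⟩ := List.mem_map.1 h
          have := hK y (by rw [hq]; simp [hy])
          omega
        · exact hv1 x h
      · rw [List.count_append, hv2, Nat.add_zero, List.count_eq_zero]
        intro h
        obtain ⟨y, hy, h0⟩ := List.mem_map.1 h
        have := hqj y hy
        omega
      · intro k hk
        have h1 : (q.map (fun x => x - j)).count k = q.count (k + j) := by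
          clear hq hqi
          induction q with
          | nil => simp
          | cons a q ihq =>
            have ha := hqj a (by simp)
            rw [List.map_cons, List.count_cons, List.count_cons,
              ihq fun x hx => hqj x (List.mem_cons_of_mem _ hx)]
            congr 1
            by_cases h : a = k + j
            · have h' : a - j = k := by omega
              simp [h, h']
            · have h' : ¬ a - j = k := by omega
              simp [h, h']
        have h2 := hqi (k + j)
        have h3 := hv3 k hk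
        have h4 : i.count (k + j) + i.countP (fun c' => decide (k ≤ c' ∧ c' < k + (j - c))) ≤
            i.countP (fun c => decide (k ≤ c ∧ c < k + (j + 1))) := by
          exact countP_aux i k j (j - c) (by omega)
        rw [List.count_append, h1]
        omega
      · intro n hn
        obtain ⟨y, hy⟩ := hv4 n hn
        have h1 : E (n + (j + 1)) = ex E (n + j) W := hE (n + j) (by omega)
        have h2 : ex E (n + j) q = ex E n (q.map fun x => x - j) := by
          unfold ex
          rw [List.flatMap_map]
          refine List.flatMap_congr fun x hx => ?_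
          have := hqj x hx
          congr 1
          omega
        have h3 : n + j - c = n + (j - c) := by omega
        refine ⟨y ++ ex E (n + j) r, ?_⟩
        have h4 : ∀ a b : List ℕ, ex E n (a ++ b) = ex E n a ++ ex E n b := by
          intro a b; simp [ex]
        rw [h1, hq, h4]
        have h5 : ex E (n + j) (q ++ c :: r) =
            ex E (n + j) q ++ (E (n + j - c) ++ ex E (n + j) r) := by simp [ex]
        rw [h5, h3, hy, h2]
        simp

/-- A common letter after prefixes with equal letter counts. -/
def Share (p q : List α) : Prop :=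
  ∃ (a : α) (p1 p2 q1 q2 : List α), p = p1 ++ a :: p2 ∧ q = q1 ++ a :: q2 ∧
    ∀ b, p1.count b = q1.count b

theorem main {E : ℕ → List α} {K : ℕ} {W : List ℕ} (hK : ∀ k ∈ W, k ≤ K)
    (hne : ∀ n, E n ≠ []) (hE : ∀ n, K ≤ n → E (n + 1) = ex E n W)
    (hW : W.length < 2 * W.count 0) (j : ℕ) : ∃ N, ∀ n, N ≤ n → Share (E (n + j)) (E n) := by
  obtain ⟨p, T, hpT, hwin, hroom⟩ := split_exists W hW
  obtain ⟨i, s, hi, hi0⟩ : ∃ i s, W = i ++ 0 :: s ∧ 0 ∉ i := by
    obtain ⟨m, r, h1, h2⟩ := cut W 0 (by omega)
    exact ⟨m, r, h1, by rwa [List.count_eq_zero] at h2⟩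
  have hroom' := hroom i s hi hi0
  obtain ⟨v, hv1, hv2, hv3, hv4⟩ := start hK hE hi hi0 j
  have hcl : Cl E K (fun k => -(v.count k : ℤ)) := by
    refine descent hK hne hE hpT hwin hi hi0 hroom' _ _ (Nat.lt_succ_self _) ?_ ?_
    · simp [hv2]
    · intro k hk
      have h1 := hv3 k hk
      have h2 : i.countP (fun c => decide (k ≤ c ∧ c < k + j)) ≤
          i.countP (fun c => decide (k ≤ c)) := by
        refine List.countP_mono_left fun x _ h => ?_
        simp only [decide_eq_true_eq] at h ⊢
        exact h.1
      rw [List.countP_append]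
      simp only [Int.natAbs_neg, Int.natAbs_natCast]
      omega
  obtain ⟨N, hN⟩ := hcl
  refine ⟨max N K, fun n hn => ?_⟩
  obtain ⟨y, hy⟩ := hv4 n (by omega)
  obtain ⟨a, p1, p2, q1, q2, h1, h2, h3⟩ := hN n (by omega)
  refine ⟨a, ex E n v ++ p1, p2 ++ y, q1, q2, ?_, h2, fun b => ?_⟩
  · rw [hy]
    conv_lhs => rw [h1]
    simp
  · have h4 := h3 b
    have h5 := count_ex E K n v hv1 b
    have h6 : V E K (fun k => -(v.count k : ℤ)) n b = - V E K (fun k => (v.count k : ℤ)) n b := by
      unfold V
      rw [← Finset.sum_neg_distrib]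
      exact Finset.sum_congr rfl fun k _ => by ring
    rw [h6, ← h5] at h4
    rw [List.count_append]
    omega

end Pool.Agent.SCF
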