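import Pool.Agent.SCF.Descent
import Pool.Agent.SCL.Dom

/-!
# The expansion into delays and the sharp theorem
-/

set_option autoImplicit false

open Finset Matrix

namespace Pool.Agent.SCF

open Pool.Agent.SCX Pool.Agent.SCL

variable {n : ℕ}

/-- The expansion of a letter into delays, `m` = fuel. -/
def G (σ : Fin (n + 1) → List (Fin (n + 1))) : ℕ → Fin (n + 1) → List ℕ
  | 0, i => if i = 0 then [0] else []
  | m + 1, i => if i = 0 then [0] else (σ i).flatMap fun x => (G σ m x).map (· + 1)

theorem G_zero (σ : Fin (n + 1) → List (Fin (n + 1))) (m : ℕ) : G σ m 0 = [0] := by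
  cases m <;> simp [G]

theorem G_nil (σ : Fin (n + 1) → List (Fin (n + 1))) (j : Fin n) : G σ 0 j.succ = [] := by
  simp [G]

theorem G_succ (σ : Fin (n + 1) → List (Fin (n + 1))) (m : ℕ) (j : Fin n) :
    G σ (m + 1) j.succ = (σ j.succ).flatMap fun x => (G σ m x).map (· + 1) := by
  simp [G]

theorem G_le (σ : Fin (n + 1) → List (Fin (n + 1))) (m : ℕ) :
    ∀ i, ∀ k ∈ G σ m i, k ≤ m := by
  induction m with
  | zero =>
    intro i
    refine Fin.cases ?_ (fun j => ?_) i
    · rw [G_zero]; simp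
    · rw [G_nil]; simp
  | succ m ih =>
    intro i
    refine Fin.cases ?_ (fun j => ?_) i
    · rw [G_zero]; simp
    · rw [G_succ]
      intro k hk
      obtain ⟨x, _, hx⟩ := List.mem_flatMap.1 hk
      obtain ⟨y, hy, rfl⟩ := List.mem_map.1 hx
      have := ih x y hy
      omega

theorem G_count (σ : Fin (n + 1) → List (Fin (n + 1))) (m : ℕ) (j : Fin n) :
    (G σ m j.succ).count 0 = 0 := by
  cases m with
  | zero => rw [G_nil]; rfl
  | succ m =>
    rw [G_succ, List.count_eq_zero]
    intro h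
    obtain ⟨x, _, hx⟩ := List.mem_flatMap.1 h
    obtain ⟨y, _, hy⟩ := List.mem_map.1 hx
    omega

theorem count_expand (σ : Fin (n + 1) → List (Fin (n + 1))) (m : ℕ) (w : List (Fin (n + 1))) :
    (w.flatMap (G σ m)).count 0 = w.count 0 := by
  induction w with
  | nil => simp
  | cons x w ih =>
    rw [List.flatMap_cons, List.count_append, ih]
    refine Fin.cases ?_ (fun j => ?_) x
    · rw [G_zero, List.count_cons_self]; simp; ring
    · rw [G_count, List.count_cons_of_ne (Fin.succ_ne_zero j)]; ring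

variable {σ : Fin (n + 1) → List (Fin (n + 1))} {a : ℕ} {b c : Fin n → ℕ}
  {D : Matrix (Fin n) (Fin n) ℕ}

theorem length_aux (m : ℕ) (L : Fin n → ℕ) (hL : ∀ j : Fin n, (G σ m j.succ).length = L j)
    (w : List (Fin (n + 1))) : (w.flatMap (G σ m)).length = w.count 0 + L ⬝ᵥ nz w := by
  induction w with
  | nil => simp [nz_nil]
  | cons x w ih =>
    rw [List.flatMap_cons, List.length_append, ih]
    refine Fin.cases ?_ (fun j => ?_) x
    · rw [G_zero, nz_zero_cons, List.count_cons_self]; simp; ring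
    · rw [hL, nz_succ_cons, dotProduct_add, dotProduct_single,
        List.count_cons_of_ne (Fin.succ_ne_zero j)]
      ring

theorem length_G (h : Has σ a b c D) (m : ℕ) :
    ∀ j : Fin n, (G σ m j.succ).length = (∑ k ∈ range m, bet b D k) j := by
  induction m with
  | zero => intro j; rw [G_nil]; simp
  | succ m ih =>
    intro j
    have h1 : (G σ (m + 1) j.succ).length = ((σ j.succ).flatMap (G σ m)).length := by
      rw [G_succ, List.length_flatMap, List.length_flatMap]
      simp
    rw [h1, length_aux m _ ih, h.bj, h.dj]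
    have h2 : (fun i => D i j) = D *ᵥ Pi.single j 1 := by
      rw [Matrix.mulVec_single_one]; rfl
    rw [h2, Finset.sum_range_succ']
    have h3 : (∑ k ∈ range m, bet b D k) ⬝ᵥ (D *ᵥ Pi.single j 1) =
        (∑ k ∈ range m, bet b D (k + 1)) j := by
      rw [sum_dotProduct, Finset.sum_apply]
      refine Finset.sum_congr rfl fun k _ => ?_
      rw [← bet_succ, dotProduct_single, mul_one]
    rw [h3, Pi.add_apply]
    have h4 : bet b D 0 j = b j := by rw [bet, pow_zero, Matrix.vecMul_one]
    rw [h4]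
    ring

/-- The fuel `m` suffices for the letter `i`. -/
def Ok (D : Matrix (Fin n) (Fin n) ℕ) (m : ℕ) (i : Fin (n + 1)) : Prop :=
  ∀ j : Fin n, i = j.succ → ∀ k, (D ^ m) k j = 0

theorem sub_flat (σ : Fin (n + 1) → List (Fin (n + 1))) (t : ℕ) (w : List (Fin (n + 1))) :
    sub σ t w = w.flatMap fun x => sub σ t [x] := by
  induction w with
  | nil =>
    simp only [List.flatMap_nil]
    induction t with
    | zero => rfl
    | succ t ih => rw [sub_succ]; exact ih
  | cons x w ih =>
    rw [show x :: w = [x] ++ w from rfl, sub_append, ih]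
    simp

theorem expand (h : Has σ a b c D) (m : ℕ) : ∀ i, Ok D m i → ∀ t, m ≤ t →
    sub σ t [i] = ex (fun s => sub σ s [0]) t (G σ m i) := by
  induction m with
  | zero =>
    intro i hi t _
    revert hi
    refine Fin.cases ?_ (fun j => ?_) i
    · intro _; simp [G_zero, ex]
    · intro hj
      have := hj j rfl j
      simp at this
  | succ m ih =>
    intro i hi t ht
    obtain ⟨t, rfl⟩ : ∃ t', t = t' + 1 := ⟨t - 1, by omega⟩
    revert hi
    refine Fin.cases ?_ (fun j => ?_) i
    · intro _; simp [G_zero, ex]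
    · intro hj
      have e1 : sub σ (t + 1) [j.succ] = sub σ t (σ j.succ) := by
        rw [sub_succ]; simp
      rw [e1, sub_flat, G_succ, ex, List.flatMap_assoc]
      refine List.flatMap_congr fun x hx => ?_
      have hok : Ok D m x := by
        intro j' hj' k
        subst hj'
        have h1 := hj j rfl k
        rw [pow_succ, Matrix.mul_apply] at h1
        have h2 := (Finset.sum_eq_zero_iff.1 h1) j' (Finset.mem_univ _)
        have h3 : D j' j ≠ 0 := by
          have h4 := congrFun (h.dj j) j'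
          have h5 : 0 < (σ j.succ).count j'.succ := List.count_pos_iff.2 hx
          simp only [nz] at h4
          omega
        rcases Nat.mul_eq_zero.1 h2 with h6 | h6
        · exact h6
        · exact absurd h6 h3
      rw [ih x hok t (by omega), ex, List.flatMap_map]
      refine List.flatMap_congr fun k _ => ?_
      have : t + 1 - (k + 1) = t - k := by omega
      simp only [this]

theorem pre_sharp (h : ∀ i j, (σ j).count i = mat a b c D i j) (hD : D ^ n = 0)
    (hcol : ∀ j : Fin n, b j ≠ 0 ∨ ∃ i, D i j ≠ 0)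
    (ha : ∑ k ∈ range n, b ⬝ᵥ (D ^ k *ᵥ c) < a) : ∃ N, ∀ t, N ≤ t → PreAt t σ := by
  have hh := has_of h
  have ha0 : 0 < a := by omega
  have h0 : (0 : Fin (n + 1)) ∈ σ 0 := by
    rw [← List.count_pos_iff, hh.a0]
    exact ha0
  have hne : ∀ i, σ i ≠ [] := by
    intro i
    refine Fin.cases ?_ (fun j => ?_) i
    · exact List.ne_nil_of_mem h0
    · intro hcon
      rcases hcol j with hb | ⟨i, hi⟩
      · apply hb
        rw [← hh.bj j, hcon]
        rfl
      · apply hi
        have h1 := congrFun (hh.dj j) i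
        rw [hcon, nz_nil] at h1
        exact h1.symm
  have hok : ∀ i, Ok D n i := by
    intro i j _ k
    rw [hD]; rfl
  have hex : ∀ i t, n ≤ t → sub σ t [i] = ex (fun s => sub σ s [0]) t (G σ n i) :=
    fun i t ht => expand hh n i (hok i) t ht
  have hE : ∀ t, n ≤ t → sub σ (t + 1) [0] =
      ex (fun s => sub σ s [0]) t ((σ 0).flatMap (G σ n)) := by
    intro t ht
    have e1 : sub σ (t + 1) [0] = sub σ t (σ 0) := by rw [sub_succ]; simp
    rw [e1, sub_flat, ex, List.flatMap_assoc]
    exact List.flatMap_congr fun x _ => hex x t ht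
  have hK : ∀ k ∈ (σ 0).flatMap (G σ n), k ≤ n := by
    intro k hk
    obtain ⟨x, _, hx⟩ := List.mem_flatMap.1 hk
    exact G_le σ n x k hx
  have hW : ((σ 0).flatMap (G σ n)).length < 2 * ((σ 0).flatMap (G σ n)).count 0 := by
    rw [count_expand, length_aux n _ (length_G hh n), hh.a0, hh.c0]
    have h1 : (∑ k ∈ range n, bet b D k) ⬝ᵥ c = ∑ k ∈ range n, b ⬝ᵥ (D ^ k *ᵥ c) := by
      rw [sum_dotProduct]
      exact Finset.sum_congr rfl fun k _ => by rw [bet, Matrix.dotProduct_mulVec]
    rw [h1]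
    omega
  have hnE : ∀ t, sub σ t [0] ≠ [] := fun t => sub_ne_nil hne t [0] (by simp)
  -- a uniform level
  have hmain := fun j => main hK hnE hE hW j
  choose M hM using hmain
  obtain ⟨N, hN⟩ : ∃ N, ∀ j ≤ n, M j ≤ N :=
    ⟨∑ j ∈ range (n + 1), M j, fun j hj => Finset.single_le_sum (f := M)
      (fun _ _ => Nat.zero_le _) (Finset.mem_range.2 (by omega))⟩
  refine ⟨N + n, fun t ht i j => ?_⟩
  -- first blocks
  have hfirst : ∀ i, ∃ k ≤ n, ∃ y, sub σ t [i] = sub σ (t - k) [0] ++ y := by
    intro i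
    have e1 := hex i t (by omega)
    have e2 : G σ n i ≠ [] := by
      intro hcon
      rw [hcon] at e1
      exact sub_ne_nil hne t [i] (by simp) (by rw [e1]; rfl)
    obtain ⟨k, l, hkl⟩ := List.exists_cons_of_ne_nil e2
    refine ⟨k, G_le σ n i k (by rw [hkl]; simp), ex (fun s => sub σ s [0]) t l, ?_⟩
    rw [e1, hkl]
    simp [ex]
  obtain ⟨k, hk, y, hy⟩ := hfirst i
  obtain ⟨k', hk', y', hy'⟩ := hfirst j
  rw [image_eq_sub, image_eq_sub, hy, hy']
  rcases le_total k k' with hkk | hkk
  · have e1 := hM (k' - k) (t - k') (by have := hN (k' - k) (by omega); omega)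
    have e2 : t - k' + (k' - k) = t - k := by omega
    rw [e2] at e1
    obtain ⟨x, p1, p2, q1, q2, f1, f2, f3⟩ := e1
    exact ⟨x, p1, q1, p2 ++ y, q2 ++ y', by rw [f1]; simp, by rw [f2]; simp, f3⟩
  · have e1 := hM (k - k') (t - k) (by have := hN (k - k') (by omega); omega)
    have e2 : t - k + (k - k') = t - k' := by omega
    rw [e2] at e1
    obtain ⟨x, p1, p2, q1, q2, f1, f2, f3⟩ := e1
    exact ⟨x, q1, p1, q2 ++ y, p2 ++ y', by rw [f2]; simp, by rw [f1]; simp, fun z => (f3 z).symm⟩

/-- **The sharp theorem.** All pairs of letters, prefixes and suffixes, from some level on. -/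
theorem strong_sharp_all (h : ∀ i j, (σ j).count i = mat a b c D i j) (hD : D ^ n = 0)
    (hcol : ∀ j : Fin n, b j ≠ 0 ∨ ∃ i, D i j ≠ 0)
    (ha : ∑ k ∈ range n, b ⬝ᵥ (D ^ k *ᵥ c) < a) : ∃ N, ∀ t, N ≤ t → StrongCoincidenceAt t σ := by
  obtain ⟨N, hN⟩ := pre_sharp h hD hcol ha
  obtain ⟨N', hN'⟩ := pre_sharp (σ := fun i => (σ i).reverse) (a := a) (b := b) (c := c) (D := D)
    (fun i j => by rw [← h i j, List.count_reverse]) hD hcol ha
  exact ⟨max N N', fun t ht => both _ _ (hN t (by omega)) (hN' t (by omega))⟩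

theorem strong_sharp (h : ∀ i j, (σ j).count i = mat a b c D i j) (hD : D ^ n = 0)
    (hcol : ∀ j : Fin n, b j ≠ 0 ∨ ∃ i, D i j ≠ 0)
    (ha : ∑ k ∈ range n, b ⬝ᵥ (D ^ k *ᵥ c) < a) : ∃ N, StrongCoincidenceAt N σ := by
  obtain ⟨N, hN⟩ := strong_sharp_all h hD hcol ha
  exact ⟨N, hN N le_rfl⟩

end Pool.Agent.SCF
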